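import Pool.Agent.Lib.MP_e61cf5_co.Sanity

set_option autoImplicit false

/-!
# No polygonal digraph has Laplacian spread strictly between 0 and 1

Outline.  On vectors of coordinate sum zero the real part of the quadratic form of `L` is
`-(1/2) ∑_{i ≠ j} f i j * x i * x j`, where `f i j = d i + d j + a i j + a j i`.  If the spread is
less than one then `f` takes two consecutive values `m, m + 1`, so that, up to a scalar, the form is
minus one half of the adjacency form of the graph `G` of the pairs of weight `m + 1`, and the number
of edges of `G` is constrained: `n` divides the sum of its degrees.  The spread condition forces `G`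
to be a threshold graph of a very restricted kind, which contradicts this divisibility when `n ≥ 5`.
The case `n = 4` is a finite check: exactly the digraphs of a few shapes remain; all of their
nonzero eigenvalues have real part in `(1/2) ℤ`, which a polygonal digraph of spread less than one
cannot have.
-/

namespace Pool.Agent.Results.MP_e61cf5_co.SpreadGap

open Pool.Agent.Lib.MP_e61cf5_co

/-- No polygonal digraph `Γ` of any order `n ≥ 2` satisfies `0 < sp(Γ) < 1`. -/
theorem result : ∀ n : ℕ, 2 ≤ n → ∀ Γ : Dig n, Γ.IsPolygonal → ¬ (0 < Γ.spread ∧ Γ.spread < 1) :=
  fun n hn Γ hΓ => spread_gap n hn Γ hΓ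

end Pool.Agent.Results.MP_e61cf5_co.SpreadGap
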